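import Pool.Agent.Helper72.IM.Forms
import Pool.Agent.Helper62.IM.CU
import Pool.Agent.Helper33.IM.K
import Pool.Agent.Helper33.IM.M

/-!
# Holomorphic immersions of the hypersurfaces `w₀ g(w₁, …, wₙ) + f(w₁, …, wₙ) = 1`

All forms with a point of multiplicity `≥ d - 1`, in particular all singular cubic forms.
-/

open MvPolynomial Pool.Agent.Helper40.IM Pool.Agent.Helper72.IM

namespace Pool.Agent.Results.MP_1994dd_an.MonoidForms

theorem exists_H (p q : ℝ) (hp : 0 < p) (hq : 0 < q) : ∃ H : ℂ × ℂ → ℂ, Differentiable ℂ H ∧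
    ∀ w g : ℂ, g + fderiv ℂ H (w, g) (-((q : ℂ) - (q - p) * (w * g)), (p : ℂ) * g ^ 2) ≠ 0 :=
  exists_H_aux p q hp hq (fun c hc hc1 => Pool.Agent.Helper33.IM.exists_M c hc hc1)
    (fun α c hc => Pool.Agent.Helper33.IM.exists_K α c hc)

/-- Let `g`, `f` be polynomials in `n` variables that are semi-invariants, of real weights
`p, q > 0`, of a holomorphic one-parameter group `φ` of automorphisms of `ℂⁿ`, and let `F` be
obtained from `w₀ g(w₁, …, wₙ) + f(w₁, …, wₙ)` by any polynomial change of coordinates of `ℂⁿ⁺¹`.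
Then `{F = 1}` immerses holomorphically into `ℂⁿ`. (Smoothness of `{F = 1}` is automatic.) -/
theorem result (n : ℕ) (g f : MvPolynomial (Fin n) ℂ) (p q : ℝ) (hp : 0 < p) (hq : 0 < q)
    (φ : ℂ → (Fin n → ℂ) → (Fin n → ℂ)) (hφ : IsFlow φ)
    (hg : ∀ t z, eval (φ t z) g = Complex.exp (p * t) * eval z g)
    (hf : ∀ t z, eval (φ t z) f = Complex.exp (q * t) * eval z f)
    (σ : MvPolynomial (Fin (n + 1)) ℂ ≃ₐ[ℂ] MvPolynomial (Fin (n + 1)) ℂ)
    (F : MvPolynomial (Fin (n + 1)) ℂ)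
    (hF : F = σ (X 0 * rename Fin.succ g + rename Fin.succ f)) :
    ∃ Φ : (Fin (n + 1) → ℂ) → (Fin n → ℂ), Differentiable ℂ Φ ∧
      ∀ w, eval w F = 1 → ∀ v, ∑ i, v i * eval w (pderiv i F) = 0 →
        fderiv ℂ Φ w v = 0 → v = 0 := by
  set F₀ : MvPolynomial (Fin (n + 1)) ℂ := X 0 * rename Fin.succ g + rename Fin.succ f with hF₀
  let α : (Fin (n + 1) → ℂ) → (Fin (n + 1) → ℂ) := fun w i => eval w (σ (X i))
  let β : (Fin (n + 1) → ℂ) → (Fin (n + 1) → ℂ) := fun w i => eval w (σ.symm (X i))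
  have hα : ∀ w p, eval w (σ p) = eval (α w) p := by
    intro w p
    have h1 : (aeval w : MvPolynomial (Fin (n + 1)) ℂ →ₐ[ℂ] ℂ).comp (σ : _ →ₐ[ℂ] _) =
        (aeval (α w) : MvPolynomial (Fin (n + 1)) ℂ →ₐ[ℂ] ℂ) := by
      apply MvPolynomial.algHom_ext
      intro i
      simp [α, aeval_eq_eval]
    have h2 := congrArg (fun L => L p) h1
    simpa [aeval_eq_eval] using h2
  have hβ : ∀ w p, eval w (σ.symm p) = eval (β w) p := by
    intro w p
    have h1 : (aeval w : MvPolynomial (Fin (n + 1)) ℂ →ₐ[ℂ] ℂ).comp (σ.symm : _ →ₐ[ℂ] _) =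
        (aeval (β w) : MvPolynomial (Fin (n + 1)) ℂ →ₐ[ℂ] ℂ) := by
      apply MvPolynomial.algHom_ext
      intro i
      simp [β, aeval_eq_eval]
    have h2 := congrArg (fun L => L p) h1
    simpa [aeval_eq_eval] using h2
  have hβα : ∀ w, β (α w) = w := by
    intro w
    ext i
    change eval (α w) (σ.symm (X i)) = w i
    rw [← hα w, AlgEquiv.apply_symm_apply, eval_X]
  have hdα : Differentiable ℂ α := differentiable_pi.2 fun i => differentiable_eval _
  have hdβ : Differentiable ℂ β := differentiable_pi.2 fun i => differentiable_eval _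
  obtain ⟨hEd, hΦ⟩ := core2 φ hφ (fun z => eval z g) (fun z => eval z f)
    (differentiable_eval g) (differentiable_eval f) p q hg hf (exists_H p q hp hq)
    (fun w => eval w F₀) (by
      intro w
      rw [hF₀, map_add, map_mul, eval_rename, eval_rename, eval_X]
      rfl)
  refine transport α β hdα hdβ hβα (fun w => eval w F₀) hEd hΦ F (fun w => ?_)
  rw [hF]
  exact hα w _

/-- The case of a form `F` of degree `d ≥ 2` in `n + 1` variables with a point `e ≠ 0` of
multiplicity `≥ d - 1` (the second derivative of `F` in the direction `e` vanishes identically). -/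
theorem multiplicity_case {n d : ℕ} (F : MvPolynomial (Fin (n + 1)) ℂ) (hd : 2 ≤ d)
    (hF : F.IsHomogeneous d) (e : Fin (n + 1) → ℂ) (he0 : e ≠ 0)
    (he : ∑ i, ∑ j, C (e i * e j) * pderiv j (pderiv i F) = 0) :
    ∃ Φ : (Fin (n + 1) → ℂ) → (Fin n → ℂ), Differentiable ℂ Φ ∧
      ∀ w, eval w F = 1 → ∀ v, ∑ i, v i * eval w (pderiv i F) = 0 →
        fderiv ℂ Φ w v = 0 → v = 0 := by
  refine forms_aux hd F hF e he0 (fun z => ?_) exists_H
  have h1 := congrArg (fun P => eval z P) he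
  simpa [map_sum] using h1

/-- The case of singular cubic forms. -/
theorem singular_cubic_case {n : ℕ} (F : MvPolynomial (Fin (n + 1)) ℂ) (hF : F.IsHomogeneous 3)
    (e : Fin (n + 1) → ℂ) (he0 : e ≠ 0) (he : ∀ i, eval e (pderiv i F) = 0) :
    ∃ Φ : (Fin (n + 1) → ℂ) → (Fin n → ℂ), Differentiable ℂ Φ ∧
      ∀ w, eval w F = 1 → ∀ v, ∑ i, v i * eval w (pderiv i F) = 0 →
        fderiv ℂ Φ w v = 0 → v = 0 :=
  forms_aux (by norm_num) F hF e he0 (fun z => cubic_line F hF e he z) exists_H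

end Pool.Agent.Results.MP_1994dd_an.MonoidForms
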